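import Mathlib
import Pool.Agent.H26.BL7

set_option autoImplicit false

open Filter Topology Metric
open scoped BoundedContinuousFunction ENNReal

namespace Pool.Agent.Results.MP_43bafb_an.Proof

open H26 BL0 BL1

def Coef (p : ℝ) (n : ℕ) : Set (Fin n → ℝ) :=
  {a | ∀ t : Fin n → ℝ, ∑ i, a i * t i ≤ (∑ i, |t i| ^ p) ^ (1 / p)}

def Comb (p : ℝ) {X : BL} {n : ℕ} (x : Fin n → X) : Set X := {y | ∃ a ∈ Coef p n, y = ∑ i, a i • x i}

def PConv (p : ℝ) (X : BL) : Prop :=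
  ∀ (n : ℕ) (x : Fin n → X) (s : X), IsLUB (Comb p x) s → ‖s‖ ≤ (∑ i, ‖x i‖ ^ p) ^ (1 / p)

def Ext {E : Type} [NormedAddCommGroup E] [NormedSpace ℝ E] {F X : BL} (δ : E → F)
    (T : E →L[ℝ] X) (S : F →L[ℝ] X) : Prop := IsHom S ∧ ∀ x, S (δ x) = T x

def IsFree (p : ℝ) {E : Type} [NormedAddCommGroup E] [NormedSpace ℝ E] {F : BL}
    (δ : E →ₗᵢ[ℝ] F) : Prop :=
  PConv p F ∧ ∀ X : BL, PConv p X → ∀ T : E →L[ℝ] X,
    ∃ S, Ext δ T S ∧ ‖S‖ = ‖T‖ ∧ ∀ S', Ext δ T S' → S' = S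

def NA {Y : Type} [NormedAddCommGroup Y] [NormedSpace ℝ Y] (φ : Y →L[ℝ] ℝ) : Prop :=
  ∃ y, ‖y‖ ≤ 1 ∧ φ y = ‖φ‖

section
variable {E : Type} [NormedAddCommGroup E] [NormedSpace ℝ E]

lemma closed_range [CompleteSpace E] {Y : Type} [NormedAddCommGroup Y] [NormedSpace ℝ Y]
    (J : E →ₗᵢ[ℝ] Y) (b : Y) (h : ∀ ε > 0, ∃ v g, J v = b - g ∧ ‖g‖ < ε) : ∃ v, J v = b :=
  J.isometry.isClosedEmbedding.isClosed_range.closure_subset (Metric.mem_closure_iff.2 fun ε hε =>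
    let ⟨v, g, h1, h2⟩ := h ε hε; ⟨_, ⟨v, rfl⟩, by rwa [h1, dist_eq_norm, sub_sub_cancel]⟩)

lemma mem_range [CompleteSpace E] (b : StrongDual ℝ (StrongDual ℝ E)) (h : ∀ ε > 0, ∃ I : Finset E,
    ∀ z : StrongDual ℝ E, ‖z‖ ≤ 1 → (∀ i ∈ I, z i = 0) → -ε ≤ b z) :
    ∃ v : E, ‖v‖ = ‖b‖ ∧ ∀ z, z v = b z := by
  let J := NormedSpace.inclusionInDoubleDualLi ℝ (E := E)
  obtain ⟨v, hv⟩ := closed_range J b fun ε hε => by
    obtain ⟨I, hI⟩ := h _ (half_pos hε)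
    let V := ⨅ i : I, LinearMap.ker (J i).toLinearMap
    obtain ⟨g, g1, g2⟩ := exists_extension_norm_eq V (b.comp V.subtypeL)
    obtain ⟨c, hc⟩ := (Submodule.mem_span_range_iff_exists_fun ℝ).1 (mem_span_of_iInf_ker_le_ker
      (L := fun i : I => (J i).toLinearMap) (K := (b - g).toLinearMap) fun z hz =>
        sub_eq_zero.2 (g1 ⟨z, hz⟩).symm)
    refine ⟨∑ i : I, c i • i.1, g, ContinuousLinearMap.ext fun z => by
      simpa [J, NormedSpace.inclusionInDoubleDualLi] using congrArg (· z) hc, g2.trans_lt ?_⟩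
    refine (ContinuousLinearMap.opNorm_le_of_unit_norm (half_pos hε).le fun z hz => ?_).trans_lt
      (half_lt_self hε)
    have h1 : ∀ z : V, ‖z‖ = 1 → -(ε / 2) ≤ b z := fun z hz => hI z hz.le fun i hi =>
      (Submodule.mem_iInf _).1 z.2 ⟨i, hi⟩
    exact abs_le.2 ⟨h1 z hz, by simpa using h1 (-z) (by simpa using hz)⟩
  exact ⟨v, by rw [← hv, J.norm_map], fun z => congrArg (· z) hv⟩

lemma state {p : ℝ} (hp0 : 0 < p) (G : StrongDual ℝ E → ℝ) (h0 : G 0 = 0)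
    (h2 : ∀ (ι : Type) [Fintype ι] (w : ι → ℝ) (y : ι → StrongDual ℝ E) (C : ℝ), (∀ i, 0 ≤ w i) →
      (∀ v, ‖v‖ ≤ 1 → ∑ i, w i * |y i v| ^ p ≤ C) → ∑ i, w i * |G (y i)| ^ p ≤ C)
    (x : StrongDual ℝ E) (hx : ‖x‖ ≤ 1) : ∃ b : StrongDual ℝ (StrongDual ℝ E), (∀ z, b z ≤ ‖z‖) ∧
      ∀ (y z : StrongDual ℝ E) (c d : ℝ), (∀ v, ‖v‖ ≤ 1 → |y v| ^ p ≤ c + d * (x v * z v)) →
        |G y| ^ p ≤ c + d * b z := by
  let B := closedBall (0 : E) 1
  have hB : ∀ (y : StrongDual ℝ E) (v : B), |y v| ≤ ‖y‖ := fun y v =>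
    (y.le_opNorm_of_le (mem_closedBall_zero_iff.1 v.2)).trans_eq (mul_one _)
  obtain ⟨ρ, hρ⟩ : ∃ ρ : StrongDual ℝ E →L[ℝ] B →ᵇ ℝ, ∀ y v, ρ y v = y v := ⟨LinearMap.mkContinuous
    ⟨⟨fun y => .ofNormedAddCommGroup (fun v => y v) (by fun_prop) _ (hB y), fun _ _ => rfl⟩,
      fun _ _ => rfl⟩ 1 fun y => (BoundedContinuousFunction.norm_le (by positivity)).2 fun v =>
        (hB y v).trans_eq (one_mul _).symm, fun _ _ => rfl⟩
  obtain ⟨P, hP⟩ : ∃ P : StrongDual ℝ E → B →ᵇ ℝ, ∀ y v, P y v = |y v| ^ p :=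
    ⟨fun y => .ofNormedAddCommGroup (fun v => |y v| ^ p)
      (Continuous.rpow_const (by fun_prop) fun _ => .inr hp0.le) (‖y‖ ^ p) fun v =>
        (Real.norm_of_nonneg (by positivity)).trans_le
          (Real.rpow_le_rpow (abs_nonneg _) (hB y v) hp0.le), fun _ _ => rfl⟩
  obtain ⟨m, u, m1, m2⟩ := geometric_hahn_banach_open (convex_ball (-1 : B →ᵇ ℝ) 1) isOpen_ball
    (convex_convexHull ℝ (Set.range fun y => P y - |G y| ^ p • 1)) (Set.disjoint_left.2 fun φ h h' => by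
      obtain ⟨ι, _, w, z, w0, -, hz, rfl⟩ := mem_convexHull_iff_exists_fintype.1 h'
      choose y hy using hz
      rw [mem_ball_iff_norm, sub_neg_eq_add] at h
      have := h2 ι w y (∑ i, w i * |G (y i)| ^ p + (‖∑ i, w i • z i + 1‖ - 1)) w0 fun v hv => by
        have := (le_abs_self _).trans ((∑ i, w i • z i + 1).norm_coe_le_norm
          ⟨v, mem_closedBall_zero_iff.2 hv⟩)
        generalize ‖∑ i, w i • z i + 1‖ = r at this
        simp [← hy, hP, mul_sub] at this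
        linarith
      linarith)
  have m3 : u ≤ 0 := by
    simpa [h0, show P 0 = 0 by ext; simp [hP, hp0.ne'], hp0.ne'] using
      m2 _ (subset_convexHull ℝ _ ⟨0, rfl⟩)
  have m4 : ∀ φ ∈ closedBall (-1 : B →ᵇ ℝ) 1, m φ ≤ u := fun φ h =>
    closure_minimal (fun φ h => (m1 φ h).le) (isClosed_le m.continuous continuous_const)
      (closure_ball (-1 : B →ᵇ ℝ) one_ne_zero ▸ h)
  have m5 : 0 < m 1 := by simpa using (m1 _ (mem_ball_self one_pos)).trans_le m3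
  have m6 : ∀ φ ψ : B →ᵇ ℝ, φ ≤ ψ → m φ ≤ m ψ := fun φ ψ h => by
    have h0 : 0 < ‖ψ - φ‖ + 1 := by positivity
    have := (m4 (-(‖ψ - φ‖ + 1)⁻¹ • (ψ - φ)) (mem_closedBall_iff_norm.2
      ((BoundedContinuousFunction.norm_le zero_le_one).2 fun v => by
        have h1 := (le_abs_self _).trans ((ψ - φ).norm_coe_le_norm v)
        have h2 : 0 ≤ (ψ - φ) v := sub_nonneg.2 (h v)
        have h3 : (‖ψ - φ‖ + 1)⁻¹ * (ψ - φ) v ≤ 1 := (inv_mul_le_one₀ h0).2 (by linarith)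
        have h4 := mul_nonneg (inv_pos.2 h0).le h2
        change |-(‖ψ - φ‖ + 1)⁻¹ * (ψ - φ) v - -1| ≤ 1
        exact abs_le.2 ⟨by linarith, by linarith⟩))).trans m3
    rw [map_smul, map_sub, smul_eq_mul, neg_mul, neg_nonpos] at this
    exact sub_nonneg.1 (nonneg_of_mul_nonneg_right this (inv_pos.2 h0))
  have m7 : ∀ y, |G y| ^ p * m 1 ≤ m (P y) := fun y => by
    have := (m4 0 (by simp)).trans
      (m2 _ (subset_convexHull ℝ _ ⟨y, rfl⟩))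
    simpa using this
  have key : ∀ (φ : B →ᵇ ℝ) z (c d : ℝ), (∀ v, φ v ≤ c + d * (x v * z v)) →
      m φ ≤ (c + d * ((m 1)⁻¹ * m (ρ x * ρ z))) * m 1 := fun φ z c d h => by
    have := m6 φ (c • 1 + d • (ρ x * ρ z)) fun v => by simpa [hρ] using h v
    rw [map_add, map_smul, map_smul, smul_eq_mul, smul_eq_mul] at this
    rwa [add_mul, mul_assoc d, mul_right_comm, inv_mul_cancel₀ m5.ne', one_mul]
  refine ⟨(m 1)⁻¹ • m.comp ((ContinuousLinearMap.mul ℝ _ (ρ x)).comp ρ), fun z => ?_,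
    fun y z c d h => le_of_mul_le_mul_right ((m7 y).trans (key _ z c d fun v =>
      (hP y v).trans_le (h v (mem_closedBall_zero_iff.1 v.2)))) m5⟩
  have := key 0 z ‖z‖ (-1) fun v => by
    have := mul_le_mul ((hB x v).trans hx) (hB z v) (abs_nonneg _) zero_le_one
    rw [← abs_mul] at this
    change 0 ≤ _
    linarith [le_abs_self (x v * z v)]
  rw [map_zero] at this
  have := nonneg_of_mul_nonneg_left this m5
  change (m 1)⁻¹ * m (ρ x * ρ z) ≤ _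
  linarith

lemma ptwise {p ε : ℝ} (hp : 0 < p) (hε : 0 < ε) : ∃ t > 0, t ≤ 1 ∧ ∀ a w : ℝ, |a| ≤ 1 → |w| ≤ 1 →
    |a + t * w| ^ p ≤ 1 + ε * t + p * t * (a * w) := by
  have hd := ((hasDerivAt_id (0 : ℝ)).const_add 1).rpow_const (p := p / 2) (.inl (by simp))
  obtain ⟨δ, hδ, hδ'⟩ := Metric.eventually_nhds_iff.1 (hd.isLittleO.def (show 0 < ε / 6 by positivity))
  obtain ⟨t, t0, t1⟩ := exists_between (lt_min (lt_min one_pos (show 0 < δ / 3 by positivity))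
    (show 0 < ε / p by positivity))
  simp only [lt_min_iff, lt_div_iff₀ hp] at t1
  refine ⟨t, t0, t1.1.1.le, fun a w ha hw => ?_⟩
  have h4 := abs_le.1 ha
  have h5 := abs_le.1 hw
  have h6 : |2 * t * (a * w) + t ^ 2| ≤ 3 * t := by
    have : |a * w| ≤ 1 := abs_le.2 ⟨by nlinarith, by nlinarith⟩
    exact abs_le.2 ⟨by nlinarith [abs_le.1 this], by nlinarith [abs_le.1 this]⟩
  have h7 := (le_abs_self _).trans (hδ' (y := 2 * t * (a * w) + t ^ 2) (by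
    rw [dist_zero_right]; exact h6.trans_lt (by linarith)))
  have h8 : |a + t * w| ^ p ≤ (1 + (2 * t * (a * w) + t ^ 2)) ^ (p / 2) := by
    rw [show p = 2 * (p / 2) by ring, Real.rpow_mul (abs_nonneg _), Real.rpow_two, sq_abs,
      show 2 * (p / 2) / 2 = p / 2 by ring]
    refine Real.rpow_le_rpow (sq_nonneg _) ?_ (by positivity)
    have : w ^ 2 ≤ 1 := by nlinarith
    nlinarith [mul_le_mul_of_nonneg_left this (sq_nonneg t)]
  simp only [id, add_zero, Real.one_rpow, sub_zero, smul_eq_mul, one_mul, mul_one,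
    Real.norm_eq_abs] at h7
  nlinarith

lemma core [CompleteSpace E] {p : ℝ} (hp : 1 ≤ p) (G : StrongDual ℝ E → ℝ) {x : StrongDual ℝ E}
    (hx : ‖x‖ ≤ 1) (h0 : G 0 = 0) (h1 : ∀ t, 0 ≤ t → G (x + t • x) = 1 + t)
    (h2 : ∀ (ι : Type) [Fintype ι] (w : ι → ℝ) (y : ι → StrongDual ℝ E) (C : ℝ), (∀ i, 0 ≤ w i) →
      (∀ v, ‖v‖ ≤ 1 → ∑ i, w i * |y i v| ^ p ≤ C) → ∑ i, w i * |G (y i)| ^ p ≤ C)
    (h3 : ∀ κ > 0, ∃ I : Finset E, ∀ z : StrongDual ℝ E, ‖z‖ ≤ 1 → (∀ i ∈ I, z i = 0) →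
      1 - κ ≤ |G (x + z)| ^ p) : ∃ v, ‖v‖ ≤ 1 ∧ x v = 1 := by
  have hp0 : 0 < p := one_pos.trans_le hp
  obtain ⟨b, b1, b2⟩ := state hp0 G h0 h2 x hx
  have key : ∀ ε > 0, ∃ t > 0, t ≤ 1 ∧ ∀ z : StrongDual ℝ E, ‖z‖ ≤ 1 →
      |G (x + t • z)| ^ p ≤ 1 + ε * t + p * t * b z := fun ε hε => by
    obtain ⟨t, t0, t1, ht⟩ := ptwise hp0 hε
    exact ⟨t, t0, t1, fun z hz => b2 _ _ _ _ fun v hv => ht _ _
      ((x.le_of_opNorm_le_of_le hx hv).trans_eq (one_mul _))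
      ((z.le_of_opNorm_le_of_le hz hv).trans_eq (one_mul _))⟩
  obtain ⟨v, v1, v2⟩ := mem_range b fun ε hε => by
    obtain ⟨t, t0, t1, ht⟩ := key _ (half_pos hε)
    obtain ⟨I, hI⟩ := h3 (ε / 2 * t) (by positivity)
    refine ⟨I, fun z hz hz' => ?_⟩
    have := (hI (t • z) (by
      rw [norm_smul, Real.norm_of_nonneg t0.le]; exact mul_le_one₀ t1 (norm_nonneg _) hz)
      fun i hi => (congrArg (t * ·) (hz' i hi)).trans (mul_zero t)).trans (ht z hz)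
    have h4 : -ε ≤ p * b z := le_of_mul_le_mul_left (by linarith) t0
    nlinarith
  have v3 : ‖v‖ ≤ 1 := v1.trans_le (b.opNorm_le_bound zero_le_one fun z =>
    (abs_le.2 ⟨by simpa [neg_le] using b1 (-z), b1 z⟩).trans_eq (one_mul _).symm)
  refine ⟨v, v3, (v2 x).trans (((b1 x).trans hx).antisymm (le_of_forall_pos_le_add fun ε hε => ?_))⟩
  obtain ⟨t, t0, -, ht⟩ := key ε hε
  have := ht x hx
  rw [h1 t t0.le, abs_of_pos (by linarith)] at this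
  have h4 : p ≤ p * b x + ε := le_of_mul_le_mul_left (by
    linarith [one_add_mul_self_le_rpow_one_add (s := t) (by linarith) hp]) t0
  nlinarith [(b1 x).trans hx]

end

lemma zero_mem (p : ℝ) {X : BL} {n : ℕ} (x : Fin n → X) : (0 : X) ∈ Comb p x :=
  ⟨0, fun t => by simpa using Real.rpow_nonneg (by positivity) _, by simp⟩

lemma pconv_bcf {p : ℝ} (hp : 0 < p) (K : Type) [TopologicalSpace K] : PConv p (bcf K real) :=
  fun n x s hs => (BoundedContinuousFunction.norm_le (by positivity)).2 fun k => by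
    refine (abs_of_nonneg (hs.1 (zero_mem p x) k)).trans_le (hs.2 (show BoundedContinuousFunction.const K _ ∈ _ from ?_) k)
    rintro _ ⟨a, ha, rfl⟩ k
    refine le_of_eq_of_le (by simp) ((ha fun i => x i k).trans ?_)
    change _ ≤ (∑ i, ‖x i‖ ^ p) ^ (1 / p)
    gcongr with i
    exact (x i).norm_coe_le_norm k

lemma pconv_real (p : ℝ) : PConv p real := fun n x s hs =>
  (abs_of_nonneg (hs.1 (zero_mem p x))).trans_le (hs.2 (by rintro _ ⟨a, ha, rfl⟩; exact ha x))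

noncomputable def lpB (I : Type) (q : ℝ≥0∞) [Fact (1 ≤ q)] : BL :=
  letI : Lattice (lp (fun _ : I => ℝ) q) := Subtype.lattice (α := I → ℝ) (P := fun f => Memℓp f q)
    (fun f g hf hg => (hf.norm.add hg.norm).mono fun i => norm_sup_le_add _ _)
    fun f g hf hg => (hf.norm.add hg.norm).mono fun i => norm_inf_le_add _ _
  haveI : IsOrderedAddMonoid (lp (fun _ : I => ℝ) q) :=
    { add_le_add_left := fun _ _ h c i => add_le_add_left (h i) (c i) }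
  haveI : PosSMulMono ℝ (lp (fun _ : I => ℝ) q) :=
    ⟨fun _ hc _ _ h i => smul_le_smul_of_nonneg_left (h i) hc⟩
  haveI : HasSolidNorm (lp (fun _ : I => ℝ) q) :=
    ⟨fun _ _ h => lp.norm_mono (zero_lt_one.trans_le Fact.out).ne' h⟩
  ⟨lp (fun _ : I => ℝ) q⟩

lemma exists_lp {p : ℝ} (hp : 1 ≤ p) (I : Type) [Fintype I] : ∃ (L : BL) (π : I → L →L[ℝ] real),
    PConv p L ∧ (∀ i, IsHom (π i)) ∧ (∀ x, ‖x‖ ^ p = ∑ i, |π i x| ^ p) ∧
    ∀ f : I → ℝ, ∃ x, ∀ i, π i x = f i := by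
  have hp0 : 0 < p := one_pos.trans_le hp
  haveI : Fact (1 ≤ ENNReal.ofReal p) := ⟨ENNReal.one_le_ofReal.2 hp⟩
  let π : I → lpB I (.ofReal p) →L[ℝ] real := lp.evalCLM ℝ (fun _ : I => ℝ) (.ofReal p)
  have h1 : ∀ x, ‖x‖ ^ p = ∑ i, |π i x| ^ p := fun x => by
    have := (lp.hasSum_norm (p := .ofReal p) ((ENNReal.toReal_ofReal hp0.le).symm ▸ hp0) x).unique
      (hasSum_fintype _)
    rwa [ENNReal.toReal_ofReal hp0.le] at this
  have h2 : ∀ f : I → ℝ, ∃ x, ∀ i, π i x = f i := fun f => ⟨⟨f, Memℓp.all f⟩, fun _ => rfl⟩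
  refine ⟨_, π, fun n x s hs => ?_, fun _ _ => rfl, h1, h2⟩
  rw [one_div, Real.le_rpow_inv_iff_of_pos (norm_nonneg _) (by positivity) hp0, h1]
  simp only [h1]
  rw [Finset.sum_comm]
  obtain ⟨b, hb⟩ := h2 fun k => (∑ i, |π k (x i)| ^ p) ^ (1 / p)
  have h3 : s ≤ b := hs.2 (by
    rintro _ ⟨a, ha, rfl⟩ k
    exact (show π k (∑ i, a i • x i) = _ by simp).trans_le ((ha fun i => π k (x i)).trans_eq
      (hb k).symm))
  refine Finset.sum_le_sum fun k _ => (Real.le_rpow_inv_iff_of_pos (abs_nonneg _) (by positivity)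
    hp0).1 ((abs_of_nonneg (hs.1 (zero_mem p x) k)).trans_le ?_)
  rw [← one_div]
  exact (show π k s ≤ π k b from h3 k).trans_eq (hb k)

theorem result (p : ℝ) (hp : 1 ≤ p) (E : Type) [NormedAddCommGroup E] [NormedSpace ℝ E]
    [CompleteSpace E] (F : BL) (δ : E →ₗᵢ[ℝ] F) (hF : IsFree p δ) (x : E →L[ℝ] ℝ)
    (φ : F →L[ℝ] real) (hφ : Ext δ x φ) : NA x ↔ NA φ := by
  have hp0 : 0 < p := one_pos.trans_le hp
  choose H h1 h2 h3 using hF.2 real (pconv_real p)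
  obtain rfl := h3 x φ hφ
  refine ⟨fun ⟨v, h, h'⟩ => ⟨δ v, (δ.norm_map v).trans_le h, (hφ.2 v).trans (h'.trans (h2 x).symm)⟩,
    fun ⟨f, f1, f2⟩ => ?_⟩
  rcases (norm_nonneg x).eq_or_lt with h | h
  · exact ⟨0, by simp, by simp [← h]⟩
  have h4 : ∀ c : ℝ, 0 ≤ c → ∀ y, H (c • y) f = c * H y f := fun c hc y => by
    rw [← h3 (c • y) (c • H y) ⟨fun w => by simp [(h1 y).1 w, abs_mul, abs_of_nonneg hc],
      fun v => by simp [(h1 y).2]⟩]
    rfl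
  have h5 : ‖‖x‖⁻¹ • x‖ ≤ 1 := by rw [norm_smul, norm_inv, norm_norm, inv_mul_cancel₀ h.ne']
  have h6 : H (‖x‖⁻¹ • x) f = 1 := by rw [h4 _ (inv_pos.2 h).le, f2, h2, inv_mul_cancel₀ h.ne']
  obtain ⟨v, v1, v2⟩ := core hp (fun y => H y f) h5 (by simpa using h4 0 le_rfl 0) (fun t ht => by
    rw [show ∀ y : E →L[ℝ] ℝ, y + t • y = (1 + t) • y from fun y => by rw [add_smul, one_smul],
      h4 _ (by positivity), h6, mul_one]) (fun ι _ w y C w0 hC => by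
    obtain ⟨L, π, l1, l2, l3, l4⟩ := exists_lp hp ι
    have l5 : ∀ {a b : L}, (∀ i, π i a = π i b) → a = b := fun {a b} h => by
      have := l3 (a - b)
      simp only [map_sub, h, sub_self, abs_zero, Real.zero_rpow hp0.ne', Finset.sum_const_zero] at this
      exact sub_eq_zero.1 (norm_eq_zero.1 ((Real.rpow_eq_zero (norm_nonneg _) hp0.ne').1 this))
    have l6 : ∀ i (r : ℝ), |w i ^ p⁻¹ * r| ^ p = w i * |r| ^ p := fun i r => by
      rw [abs_mul, Real.mul_rpow (abs_nonneg _) (abs_nonneg _), abs_of_nonneg (Real.rpow_nonneg (w0 i) _),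
        Real.rpow_inv_rpow (w0 i) hp0.ne']
    have C0 : 0 ≤ C := by simpa [hp0.ne'] using hC 0 (by simp)
    choose g hg using fun v => l4 fun i => w i ^ p⁻¹ * y i v
    let T0 : E →ₗ[ℝ] L := ⟨⟨g, fun a b => l5 fun i => by simp [hg, mul_add]⟩, fun c a =>
      l5 fun i => by simp [hg, mul_left_comm]⟩
    have hT : ∀ v, ‖v‖ ≤ 1 → ‖T0 v‖ ≤ C ^ p⁻¹ := fun v hv =>
      (Real.le_rpow_inv_iff_of_pos (norm_nonneg _) C0 hp0).2 ((l3 (g v)).trans_le (by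
        simpa only [hg, l6] using hC v hv))
    have hT' : ∀ v, ‖T0 v‖ ≤ C ^ p⁻¹ * ‖v‖ := fun v => by
      rcases eq_or_ne v 0 with rfl | hv
      · simp
      have := hT (‖v‖⁻¹ • v) (by rw [norm_smul, norm_inv, norm_norm, inv_mul_cancel₀ (by simpa)])
      rwa [map_smul, norm_smul, norm_inv, norm_norm, inv_mul_le_iff₀' (by simpa)] at this
    obtain ⟨S, s1, s2, -⟩ := hF.2 L l1 (T0.mkContinuous _ hT')
    have s3 := (Real.le_rpow_inv_iff_of_pos (norm_nonneg _) C0 hp0).1 ((S.le_of_opNorm_le_of_le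
      (s2.trans_le (T0.mkContinuous_norm_le (by positivity) hT')) f1).trans_eq (mul_one _))
    rw [l3] at s3
    refine le_of_eq_of_le (Finset.sum_congr rfl fun i _ => ?_) s3
    rw [← l6, ← h4 _ (Real.rpow_nonneg (w0 i) _), ← h3 (w i ^ p⁻¹ • y i) ((π i).comp S) ⟨IsHom.comp (l2 i) s1.1,
      fun v => (congrArg (π i) (s1.2 v)).trans (hg v i)⟩]
    rfl) fun κ hκ => by
    let K := {g : E → ℝ // ∃ z : E →L[ℝ] ℝ, ‖z‖ ≤ 2 ∧ ⇑z = g}
    have hK : ∀ v (g : K), ‖g.1 v‖ ≤ 2 * ‖v‖ := fun v ⟨_, z, hz, rfl⟩ => z.le_of_opNorm_le hz v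
    obtain ⟨S, s1, -⟩ := hF.2 (bcf K real) (pconv_bcf hp0 K) (LinearMap.mkContinuous ⟨⟨fun v =>
      .ofNormedAddCommGroup (fun g => g.1 v) ((continuous_apply v).comp continuous_subtype_val) _ (hK v), fun a b => by
        ext ⟨_, z, -, rfl⟩; exact map_add z a b⟩, fun c a => by
        ext ⟨_, z, -, rfl⟩; exact map_smul z c a⟩ 2 fun v =>
          (BoundedContinuousFunction.norm_le (by positivity)).2 (hK v))
    have s2 : ∀ (z : E →L[ℝ] ℝ) (hz : ‖z‖ ≤ 2), S f ⟨z, z, hz, rfl⟩ = H z f := fun z hz => by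
      rw [← h3 z ((BoundedContinuousFunction.evalCLM ℝ (⟨z, z, hz, rfl⟩ : K)).comp S)
        ⟨IsHom.comp (fun _ => rfl) s1.1, fun v => congrArg (· (⟨z, z, hz, rfl⟩ : K)) (s1.2 v)⟩]
      rfl
    have s3 : Continuous fun g : K => |S f g| ^ p :=
      (S f).continuous.abs.rpow_const fun _ => .inr hp0.le
    obtain ⟨U, hU, hU'⟩ := (mem_nhds_subtype _ _ _).1 ((s3.tendsto ⟨_, _, h5.trans one_le_two,
      rfl⟩).eventually (lt_mem_nhds (show 1 - κ < _ by rw [s2 _ (h5.trans one_le_two), h6]; simpa)))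
    obtain ⟨I, t, t1, t2⟩ := Filter.mem_pi'.1 (nhds_pi (a := ⇑(‖x‖⁻¹ • x)) ▸ hU)
    refine ⟨I, fun z hz hz' => ?_⟩
    have := hU' (show (⟨_, ‖x‖⁻¹ • x + z, (norm_add_le_of_le h5 hz).trans_eq one_add_one_eq_two,
      rfl⟩ : K) ∈ _ from t2 fun i hi => by simpa [hz' i hi] using mem_of_mem_nhds (t1 i))
    exact (le_of_lt this).trans_eq (congrArg (|·| ^ p) (s2 _
      ((norm_add_le_of_le h5 hz).trans_eq one_add_one_eq_two)))
  exact ⟨v, v1, by simpa using (inv_mul_eq_iff_eq_mul₀ h.ne').1 v2⟩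

end Pool.Agent.Results.MP_43bafb_an.Proof
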